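import Mathlib
import Pool.Agent.Helper26.OS.Defs

/-!
# OT: the condition on the preimages of the critical points. Definitions
-/

set_option autoImplicit false

namespace Pool.Agent.Helper26.OT

open MvPolynomial Pool.Agent.Helper61.TH Pool.Agent.Helper87.FK Pool.Agent.Helper26.OB Pool.Agent.Helper26.OS

noncomputable section

/-- The coordinate `b` after `N` steps, if all coordinates are `x` at the beginning; the letters of the step `j` have the
coefficients `c j`. -/
def chain {k : ℕ} {d : Fin k → ℕ} {R : Type} [CommRing R] (c : ℕ → Idx d → R) (π : Fin k → Fin k) :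
    ℕ → Fin k → (Fin 2 → R) → Fin 2 → R
  | 0, _, x => x
  | N + 1, b, x => ev (form (c N) b) (chain c π N (π b) x)

end

end Pool.Agent.Helper26.OT
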