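import Mathlib
import Pool.Agent.Helper26.OS.Eng

/-!
# OT: the dichotomy along an orbit without critical residues; only the letters which the orbit really meets
-/

set_option autoImplicit false

namespace Pool.Agent.Helper26.OT

open MvPolynomial Pool.Agent.Helper86.DML Pool.Agent.Helper61.TH Pool.Agent.Helper87.FK Pool.Agent.Helper26.OB
open Pool.Agent.Helper26.FU (bd)
open Pool.Agent.Helper26.OS

noncomputable section

/-- the Jacobian determinants of the words along the orbit of a system -/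
theorem orbC {ι : Type} [Fintype ι] [DecidableEq ι] {k : ℕ} {p : ℕ} [Fact p.Prime]
    (P : Fin k → ι → MvPolynomial ι ℂ) (τ : ℂ →+* PadicAlgCl p) (π : Fin k → Fin k) (Y : Fin k → ι → ℂ)
    (H : ∀ a, Adm π a a → ∀ n, ‖τ (jacI (P a) ((sysI P π)^[n] Y (π a))).det‖ = 1) (n M : ℕ) (b : Fin k)
    (hb : Adm π b b) : ‖τ (jacI (wordI P (wd52 id π n b)) ((sysI P π)^[M] Y (π^[n] b))).det‖ = 1 := by
  induction n generalizing b with
  | zero =>
    change ‖τ (jacI (fun i => (X i : MvPolynomial ι ℂ)) ((sysI P π)^[M] Y b)).det‖ = 1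
    rw [jacI_id, Matrix.det_one, map_one, norm_one]
  | succ n ih =>
    have hb' : Adm π (π b) (π b) := by
      obtain ⟨⟨m, hm⟩, -⟩ := hb
      refine ⟨⟨m, ?_⟩, ⟨0, rfl⟩⟩
      rw [← Function.iterate_succ_apply, Function.iterate_succ_apply', hm]
    change ‖τ (jacI (fun i => bind₁ (wordI P (wd52 id π n (π b))) (P b i))
      ((sysI P π)^[M] Y (π^[n + 1] b))).det‖ = 1
    rw [jacI_comp, Matrix.det_mul, map_mul, norm_mul, Function.iterate_succ_apply, ih (π b) hb', mul_one,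
      evI_wordI, ← iterI P π ((sysI P π)^[M] Y) n (π b), ← Function.iterate_add_apply]
    exact H b hb (n + M)

/-- **EC**: the dichotomy along an orbit without critical residues, for any polynomial maps -/
theorem engC {ι : Type} [Fintype ι] [DecidableEq ι] {k : ℕ} (P : Fin k → ι → MvPolynomial ι ℂ) (p : ℕ)
    [Fact p.Prime] (hp3 : 3 ≤ p) (τ : ℂ →+* PadicAlgCl p) (hP : ∀ b i s, ‖τ (coeff s (P b i))‖ ≤ 1)
    (π : Fin k → Fin k) (Y : Fin k → ι → ℂ) (hY : ∀ b i, ‖τ (Y b i)‖ ≤ 1)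
    (H : ∀ a, Adm π a a → ∀ n, ‖τ (jacI (P a) ((sysI P π)^[n] Y (π a))).det‖ = 1)
    (V : Set (MvPolynomial (Fin k × ι) ℂ)) : ∃ S : Finset (ℕ × ℕ),
      {m : ℕ | ∀ G ∈ V, eval (fun q => (sysI P π)^[m] Y q.1 q.2) G = 0} =
        {m | ∃ q ∈ S, ∃ j, m = q.1 + q.2 * j} := by
  classical
  set L := k.factorial with hL
  have hL0 : 0 < L := Nat.factorial_pos k
  let W : Fin k → ι → MvPolynomial ι ℂ := fun b => wordI P (wp id π b)
  have hW : ∀ b i s, ‖τ (coeff s (W b i))‖ ≤ 1 := by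
    intro b i s
    exact mem_Oc.1 (coeff_wordI_mem (Oc p).toSubring τ P (fun a i t => mem_Oc.2 (hP a i t)) (wp id π b) i s)
  obtain ⟨N₀, Q, hQ, hd⟩ := dichI W p hp3 τ hW Y hY fun b m => by
    change ‖τ (jacI (wordI P (wp id π b)) ((evI (wordI P (wp id π b)))^[m] (Y b))).det‖ = 1
    by_cases hb : π^[L] b = b
    · rw [wp, if_pos hb, ← iter_fixI P π Y L m b hb]
      have h1 := orbC P τ π Y H L (L * m) b ⟨⟨L - 1, by rw [Nat.sub_add_cancel hL0]; exact hb⟩, ⟨0, rfl⟩⟩
      rw [hb] at h1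
      exact h1
    · rw [wp, if_neg hb]
      change ‖τ (jacI (fun i => (X i : MvPolynomial ι ℂ)) _).det‖ = 1
      rw [jacI_id, Matrix.det_one, map_one, norm_one]
  have hd1 : ∀ (G : MvPolynomial (Fin k × ι) ℂ) (r : ℕ),
      {m | eval (fun q => (sysI P π)^[L * (1 + N₀) + r + L * Q * m] Y q.1 q.2) G = 0}.Finite ∨
      ∀ m, eval (fun q => (sysI P π)^[L * (1 + N₀) + r + L * Q * m] Y q.1 q.2) G = 0 := by
    intro G r
    obtain ⟨r₁, r₂, hr₁, hr⟩ : ∃ r₁ r₂, r₁ < L ∧ r = L * r₂ + r₁ :=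
      ⟨r % L, r / L, Nat.mod_lt _ hL0, (Nat.div_add_mod r L).symm⟩
    let e : Fin k → Fin k := fun b => π^[L + r₁] b
    have hfix : ∀ b, π^[L] (e b) = e b := by
      intro b
      have h1 : e b = π^[L] (π^[r₁] b) := by
        change π^[L + r₁] b = _
        rw [← Function.iterate_add_apply]
      rw [h1]
      exact idem52 π _
    let G' : MvPolynomial (Fin k × ι) ℂ :=
      bind₁ (fun q : Fin k × ι => rename (fun j => (e q.1, j)) (wordI P (wd52 id π (L + r₁) q.1) q.2)) G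
    have key : ∀ M, eval (fun q => (sysI P π)^[L * (M + 1) + r₁] Y q.1 q.2) G =
        eval (fun q : Fin k × ι => (evI (W q.1))^[M] (Y q.1) q.2) G' := by
      intro M
      have h1 : eval (fun q : Fin k × ι => (evI (W q.1))^[M] (Y q.1) q.2) G' =
          eval (fun q : Fin k × ι => eval (fun q : Fin k × ι => (evI (W q.1))^[M] (Y q.1) q.2)
            (rename (fun j => (e q.1, j)) (wordI P (wd52 id π (L + r₁) q.1) q.2))) G := by
        change eval _ (bind₁ _ G) = _
        rw [eval, eval₂Hom_bind₁]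
        rfl
      rw [h1]
      congr 2
      funext q
      have e1 : L * (M + 1) + r₁ = (L + r₁) + L * M := by ring
      have e2 : W (e q.1) = wordI P (wd52 id π L (e q.1)) := by
        change wordI P (wp id π (e q.1)) = _
        rw [wp, if_pos (hfix q.1)]
      rw [e1, Function.iterate_add_apply, iterI, iter_fixI P π Y L M _ (hfix q.1), eval_rename]
      change _ = eval (fun j => (evI (W (e q.1)))^[M] (Y (e q.1)) j) _
      rw [e2, ← evI_wordI]
      rfl
    have e2 : ∀ m, L * (1 + N₀) + r + L * Q * m = L * ((N₀ + r₂ + Q * m) + 1) + r₁ := by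
      intro m
      rw [hr]
      ring
    simp only [e2, key]
    exact hd G' r₂
  refine Pool.Agent.Helper26.FD.ap_of_dich _ (Q := L * Q) (Nat.mul_pos hL0 hQ) (n₀ := L * (1 + N₀)) fun r => ?_
  by_cases hall : ∀ G ∈ V, ∀ m, eval (fun q => (sysI P π)^[L * (1 + N₀) + r + L * Q * m] Y q.1 q.2) G = 0
  · right
    intro m G hGV
    exact hall G hGV m
  · left
    push Not at hall
    obtain ⟨G, hGV, m, hm⟩ := hall
    rcases hd1 G r with h2 | h2
    · exact h2.subset fun m' hm' => hm' G hGV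
    · exact absurd (h2 m) hm

/-- a progression set, shifted -/
theorem shift_ap {R : Set ℕ} (N : ℕ) (h : ∃ S : Finset (ℕ × ℕ), {n | n + N ∈ R} = {m | ∃ q ∈ S, ∃ j, m = q.1 + q.2 * j}) :
    ∃ S : Finset (ℕ × ℕ), R = {m | ∃ q ∈ S, ∃ j, m = q.1 + q.2 * j} := by
  classical
  obtain ⟨S, hS⟩ := h
  refine ⟨(((Finset.range N).filter fun n => n ∈ R).image fun n => (n, 0)) ∪ S.image fun q => (q.1 + N, q.2), ?_⟩
  ext n
  constructor
  · intro hn
    by_cases h1 : n < N
    · exact ⟨(n, 0), Finset.mem_union_left _ (Finset.mem_image.2 ⟨n, Finset.mem_filter.2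
        ⟨Finset.mem_range.2 h1, hn⟩, rfl⟩), 0, by simp⟩
    · obtain ⟨m, rfl⟩ : ∃ m, n = m + N := ⟨n - N, by omega⟩
      have h2 : m ∈ {n | n + N ∈ R} := hn
      rw [hS] at h2
      obtain ⟨q, hq, j, hj⟩ := h2
      refine ⟨(q.1 + N, q.2), Finset.mem_union_right _ (Finset.mem_image.2 ⟨q, hq, rfl⟩), j, ?_⟩
      change m + N = q.1 + N + q.2 * j
      omega
  · rintro ⟨q, hq, j, rfl⟩
    rcases Finset.mem_union.1 hq with hq | hq
    · obtain ⟨n, hn, rfl⟩ := Finset.mem_image.1 hq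
      have h1 := (Finset.mem_filter.1 hn).2
      simpa using h1
    · obtain ⟨q', hq', rfl⟩ := Finset.mem_image.1 hq
      have h1 : q'.1 + q'.2 * j ∈ {n | n + N ∈ R} := by
        rw [hS]
        exact ⟨q', hq', j, rfl⟩
      have h2 : q'.1 + q'.2 * j + N ∈ R := h1
      have h3 : (q'.1 + N) + q'.2 * j = q'.1 + q'.2 * j + N := by ring
      change (q'.1 + N) + q'.2 * j ∈ R
      rw [h3]
      exact h2

end

end Pool.Agent.Helper26.OT
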