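import Mathlib
import Pool.Agent.Helper26.OT.Defs
import Pool.Agent.Helper26.OS.FinO

/-!
# OT: the preimages of the critical points are algebraic
-/

set_option autoImplicit false

namespace Pool.Agent.Helper26.OT

open MvPolynomial Pool.Agent.Helper61.TH Pool.Agent.Helper87.FK Pool.Agent.Helper26.OB Pool.Agent.Helper26.OS

noncomputable section

/-- roots of polynomials with algebraic coefficients -/
theorem alg_root (P : Polynomial ℂ) (hP : P ≠ 0) (hc : ∀ n, IsAlgebraic ℚ (P.coeff n)) (z : ℂ) (hz : P.eval z = 0) :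
    IsAlgebraic ℚ z := by
  let L : IntermediateField ℚ ℂ := algebraicClosure ℚ ℂ
  have h1 : ∀ n, P.coeff n ∈ L := fun n => mem_algebraicClosure_iff.2 (hc n)
  obtain ⟨P', hP'⟩ : ∃ P' : Polynomial L, P'.map (algebraMap L ℂ) = P := by
    have h2 : P ∈ Polynomial.lifts (algebraMap L ℂ) := by
      rw [Polynomial.lifts_iff_coeff_lifts]
      intro n
      exact ⟨⟨_, h1 n⟩, rfl⟩
    exact h2
  have h2 : IsAlgebraic L z := by
    refine ⟨P', fun h => hP ?_, ?_⟩
    · rw [← hP', h, Polynomial.map_zero]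
    · rw [Polynomial.aeval_def, ← Polynomial.eval_map, hP', hz]
  have h3 : Algebra.IsAlgebraic ℚ L := algebraicClosure.isAlgebraic ℚ ℂ
  have h4 : Algebra.IsIntegral ℚ L := Algebra.IsAlgebraic.isIntegral
  exact (isAlgebraic_iff_isIntegral.2 (isIntegral_trans (R := ℚ) (A := L) _ (isAlgebraic_iff_isIntegral.1 h2)))

variable {k : ℕ} {d : Fin k → ℕ}

theorem hd_ev (c : Idx d → ℂ) (hdeg : HasDeg c) (b : Fin k) (x : Fin 2 → ℂ) (h : ev (form c b) x = 0) : x = 0 := by
  refine hdeg b x ?_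
  funext i
  have h1 : ev (form c b) x i = 0 := by rw [h]; rfl
  rw [ev_form] at h1
  exact h1

/-- no combination of the two forms vanishes identically -/
theorem comb_ne (c : Idx d → ℂ) (hdeg : HasDeg c) (b : Fin k) (hd : 1 ≤ d b) (u v : ℂ) (huv : ¬ (u = 0 ∧ v = 0)) :
    ∃ j : Fin (d b + 1), u * c ⟨b, (0, j)⟩ + v * c ⟨b, (1, j)⟩ ≠ 0 := by
  by_contra hcon
  push Not at hcon
  -- a common zero
  have h1 : ∀ x : Fin 2 → ℂ, u * ev (form c b) x 0 + v * ev (form c b) x 1 = 0 := by
    intro x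
    rw [ev_form, ev_form, Finset.mul_sum, Finset.mul_sum, ← Finset.sum_add_distrib]
    refine Finset.sum_eq_zero fun j _ => ?_
    have h2 := hcon j
    calc u * (c ⟨b, (0, j)⟩ * x 0 ^ (j : ℕ) * x 1 ^ (d b - j)) + v * (c ⟨b, (1, j)⟩ * x 0 ^ (j : ℕ) * x 1 ^ (d b - j))
        = (u * c ⟨b, (0, j)⟩ + v * c ⟨b, (1, j)⟩) * x 0 ^ (j : ℕ) * x 1 ^ (d b - j) := by ring
      _ = 0 := by rw [h2, zero_mul, zero_mul]
  -- a zero of each form
  have h2 : ∀ i : Fin 2, ∃ x : Fin 2 → ℂ, x ≠ 0 ∧ ev (form c b) x i = 0 := by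
    intro i
    by_cases h3 : c ⟨b, (i, Fin.last (d b))⟩ = 0
    · refine ⟨![1, 0], fun h => one_ne_zero (congrFun h 0), ?_⟩
      rw [ev_form]
      refine Finset.sum_eq_zero fun j _ => ?_
      by_cases hj : j = Fin.last (d b)
      · rw [hj, h3, zero_mul, zero_mul]
      · have h4 : (j : ℕ) < d b := lt_of_le_of_ne (Nat.lt_succ_iff.1 j.2) fun h => hj (Fin.ext h)
        have h5 : (![1, 0] : Fin 2 → ℂ) 1 = 0 := rfl
        rw [h5, zero_pow (by omega), mul_zero]
    · let Q : Polynomial ℂ := ∑ j : Fin (d b + 1), Polynomial.C (c ⟨b, (i, j)⟩) * Polynomial.X ^ (j : ℕ)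
      have hQd : Q.coeff (d b) ≠ 0 := by
        have h4 : Q.coeff (d b) = c ⟨b, (i, Fin.last (d b))⟩ := by
          rw [Polynomial.finsetSum_coeff, Finset.sum_eq_single (Fin.last (d b))]
          · rw [Polynomial.coeff_C_mul, Polynomial.coeff_X_pow, if_pos (Fin.val_last _).symm, mul_one]
          · intro j _ hj
            rw [Polynomial.coeff_C_mul, Polynomial.coeff_X_pow, if_neg, mul_zero]
            intro h
            exact hj (Fin.ext (h.symm.trans (Fin.val_last _).symm))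
          · intro h
            exact absurd (Finset.mem_univ _) h
        rw [h4]
        exact h3
      have hdeg1 : Q.degree ≠ 0 := by
        intro h
        have h5 := Polynomial.le_natDegree_of_ne_zero hQd
        have h6 : Q.natDegree = 0 := Polynomial.natDegree_eq_zero_iff_degree_le_zero.2 h.le
        omega
      obtain ⟨z, hz⟩ := IsAlgClosed.exists_root Q hdeg1
      refine ⟨![z, 1], fun h => one_ne_zero (congrFun h 1), ?_⟩
      rw [ev_form]
      have h5 : Q.eval z = ∑ j : Fin (d b + 1), c ⟨b, (i, j)⟩ * z ^ (j : ℕ) := by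
        rw [Polynomial.eval_finsetSum]
        refine Finset.sum_congr rfl fun j _ => ?_
        rw [Polynomial.eval_mul, Polynomial.eval_C, Polynomial.eval_pow, Polynomial.eval_X]
      have h6 : Q.eval z = 0 := hz
      rw [h5] at h6
      rw [← h6]
      refine Finset.sum_congr rfl fun j _ => ?_
      change _ * z ^ (j : ℕ) * 1 ^ _ = _
      rw [one_pow, mul_one]
  have h3 : ∃ x : Fin 2 → ℂ, x ≠ 0 ∧ ev (form c b) x = 0 := by
    by_cases hu : u = 0
    · have hv : v ≠ 0 := fun h => huv ⟨hu, h⟩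
      obtain ⟨x, hx, hx0⟩ := h2 0
      refine ⟨x, hx, funext fun i => ?_⟩
      fin_cases i
      · exact hx0
      · have h4 := h1 x
        rw [hu, zero_mul, zero_add] at h4
        exact (mul_eq_zero.1 h4).resolve_left hv
    · obtain ⟨x, hx, hx1⟩ := h2 1
      refine ⟨x, hx, funext fun i => ?_⟩
      fin_cases i
      · have h4 := h1 x
        rw [hx1, mul_zero, add_zero] at h4
        exact (mul_eq_zero.1 h4).resolve_left hu
      · exact hx1
  obtain ⟨x, hx, hx0⟩ := h3
  exact hx (hd_ev c hdeg b x hx0)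

/-- the preimages of algebraic points are algebraic -/
theorem alg_step (c : Idx d → ℂ) (hc : ∀ q, IsAlgebraic ℚ (c q)) (hdeg : HasDeg c) (b : Fin k) (hd : 1 ≤ d b)
    (x : Fin 2 → ℂ) (hx : x ≠ 0) (h : IsAlgebraic ℚ (ev (form c b) x 0 / ev (form c b) x 1)) :
    IsAlgebraic ℚ (x 0 / x 1) := by
  by_cases hx1 : x 1 = 0
  · rw [hx1, div_zero]
    exact isAlgebraic_zero
  set w := ev (form c b) x with hw
  have hw0 : w ≠ 0 := fun h => hx (hd_ev c hdeg b x h)
  -- `u w₀ + v w₁ = 0`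
  obtain ⟨u, v, huv, hua, hva, huw⟩ : ∃ u v : ℂ, ¬ (u = 0 ∧ v = 0) ∧ IsAlgebraic ℚ u ∧ IsAlgebraic ℚ v ∧
      u * w 0 + v * w 1 = 0 := by
    by_cases hw1 : w 1 = 0
    · exact ⟨0, 1, fun h => one_ne_zero h.2, isAlgebraic_zero, isAlgebraic_one, by rw [hw1]; ring⟩
    · refine ⟨1, -(w 0 / w 1), fun h => one_ne_zero h.1, isAlgebraic_one, h.neg, ?_⟩
      field_simp
      ring
  obtain ⟨j, hj⟩ := comb_ne c hdeg b hd u v huv
  let Q : Polynomial ℂ := ∑ j : Fin (d b + 1),
    Polynomial.C (u * c ⟨b, (0, j)⟩ + v * c ⟨b, (1, j)⟩) * Polynomial.X ^ (j : ℕ)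
  have hQc : ∀ n, Q.coeff n = if h : n < d b + 1 then u * c ⟨b, (0, ⟨n, h⟩)⟩ + v * c ⟨b, (1, ⟨n, h⟩)⟩ else 0 := by
    intro n
    rw [Polynomial.finsetSum_coeff]
    split_ifs with h1
    · rw [Finset.sum_eq_single (⟨n, h1⟩ : Fin (d b + 1))]
      · rw [Polynomial.coeff_C_mul, Polynomial.coeff_X_pow, if_pos rfl, mul_one]
      · intro j _ hj
        rw [Polynomial.coeff_C_mul, Polynomial.coeff_X_pow, if_neg, mul_zero]
        intro h
        exact hj (Fin.ext h.symm)
      · intro h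
        exact absurd (Finset.mem_univ _) h
    · refine Finset.sum_eq_zero fun j _ => ?_
      rw [Polynomial.coeff_C_mul, Polynomial.coeff_X_pow, if_neg, mul_zero]
      intro h
      exact h1 (h ▸ j.2)
  refine alg_root Q (fun h0 => hj ?_) (fun n => ?_) _ ?_
  · have h1 := hQc j
    rw [h0, Polynomial.coeff_zero, dif_pos j.2] at h1
    exact h1.symm
  · rw [hQc]
    split_ifs with h1
    · exact (hua.mul (hc _)).add (hva.mul (hc _))
    · exact isAlgebraic_zero
  · have h1 : Q.eval (x 0 / x 1) = ∑ j : Fin (d b + 1), (u * c ⟨b, (0, j)⟩ + v * c ⟨b, (1, j)⟩) * (x 0 / x 1) ^ (j : ℕ) := by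
      rw [Polynomial.eval_finsetSum]
      refine Finset.sum_congr rfl fun j _ => ?_
      rw [Polynomial.eval_mul, Polynomial.eval_C, Polynomial.eval_pow, Polynomial.eval_X]
    have h2 : x 1 ^ d b * Q.eval (x 0 / x 1) = 0 := by
      rw [← huw, h1, hw, ev_form, ev_form, Finset.mul_sum, Finset.mul_sum, Finset.mul_sum, ← Finset.sum_add_distrib]
      refine Finset.sum_congr rfl fun j _ => ?_
      have h3 : x 1 ^ d b = x 1 ^ (j : ℕ) * x 1 ^ (d b - j) := by
        rw [← pow_add]
        congr 1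
        have := j.2
        omega
      rw [h3, div_pow]
      field_simp
    exact (mul_eq_zero.1 h2).resolve_left (pow_ne_zero _ hx1)

/-- the preimages of the critical points are algebraic -/
theorem alg_chain (K : Subfield ℂ) [NumberField K] (c : ℕ → Idx d → ℂ) (hc : ∀ j q, c j q ∈ K)
    (hdeg : ∀ j, HasDeg (c j)) (hd : ∀ a, 1 ≤ d a) (π : Fin k → Fin k) (N : ℕ) (a b : Fin k) (x : Fin 2 → ℂ)
    (hx : x ≠ 0) (hw : wrh (c N) a (chain c π N b x) = 0) : IsAlgebraic ℚ (x 0 / x 1) := by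
  have hcalg : ∀ j q, IsAlgebraic ℚ (c j q) := by
    intro j q
    have h1 : IsAlgebraic K (c j q) := isAlgebraic_algebraMap (⟨c j q, hc j q⟩ : K)
    exact (isAlgebraic_iff_isIntegral.2 (isIntegral_trans (R := ℚ) (A := K) _ (isAlgebraic_iff_isIntegral.1 h1)))
  have h1 : ∀ (M : ℕ) (b : Fin k), IsAlgebraic ℚ (chain c π M b x 0 / chain c π M b x 1) →
      IsAlgebraic ℚ (x 0 / x 1) := by
    intro M
    induction M with
    | zero => exact fun b h => h
    | succ M ih =>
      intro b h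
      refine ih (π b) (alg_step (c M) (hcalg M) (hdeg M) b (hd b) _ ?_ h)
      -- the chain does not vanish
      have h2 : ∀ (M : ℕ) (b : Fin k), chain c π M b x ≠ 0 := by
        intro M
        induction M with
        | zero => exact fun b => hx
        | succ M ih => exact fun b h => ih (π b) (hd_ev (c M) (hdeg M) b _ h)
      exact h2 M (π b)
  exact h1 N b (alg_crit K (c N) (hc N) (hdeg N) a (hd a) _ hw)

end

end Pool.Agent.Helper26.OT
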