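import Mathlib
import Pool.Agent.Helper26.OT.Core
import Pool.Agent.Helper26.OT.Alg
import Pool.Agent.Helper98.OT.CH

/-!
# OT: the criterion with orbit lengths of preimages of the critical points
-/

set_option autoImplicit false

namespace Pool.Agent.Helper26.OT

open MvPolynomial Pool.Agent.Helper61.TH Pool.Agent.Helper87.FK Pool.Agent.Helper26.OB Pool.Agent.Helper26.OS

noncomputable section

theorem chain_ne98' {p : ℕ} [Fact p.Prime] {k : ℕ} {d : Fin k → ℕ} (c : ℕ → Idx d → kk p)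
    (hg : ∀ j a (x : Fin 2 → kk p), x ≠ 0 → ev (form (c j) a) x ≠ 0) (π : Fin k → Fin k) (M : ℕ) (b : Fin k)
    (x : Fin 2 → kk p) (hx : x ≠ 0) : chain c π M b x ≠ 0 := by
  induction M generalizing b with
  | zero => exact hx
  | succ M ih => exact hg M b _ (ih (π b))

/-- orbit lengths along a chain -/
theorem ol_chain {p : ℕ} [Fact p.Prime] (σ' : kk p →+* kk p) {k : ℕ} {d : Fin k → ℕ} (c : ℕ → Idx d → kk p)
    (hc : ∀ j q, σ' (c j q) = c j q) (hd : ∀ a, 1 ≤ d a)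
    (hg : ∀ j a (x : Fin 2 → kk p), x ≠ 0 → ev (form (c j) a) x ≠ 0) (π : Fin k → Fin k) (M : ℕ) (b : Fin k)
    (x : Fin 2 → kk p) (hx : x ≠ 0) :
    ∃ e, 1 ≤ e ∧ Smooth (Finset.univ.sup d) e ∧ ol σ' x = e * ol σ' (chain c π M b x) := by
  have halg : IsAlgClosed (kk p) := Pool.Agent.Helper46.OB.algClosed_kk p
  induction M generalizing b with
  | zero =>
    refine ⟨1, le_rfl, fun r hr h1 => ?_, (one_mul _).symm⟩
    exact absurd (Nat.dvd_one.1 h1) hr.ne_one
  | succ M ih =>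
    obtain ⟨e₀, he₀, hesm₀, h5⟩ := ih (π b)
    obtain ⟨e, he1, hesm, he⟩ := Pool.Agent.Helper46.OB.resdeg' (κ := kk p) σ' (Finset.univ.sup d) hd
      (fun a => Finset.le_sup (f := d) (Finset.mem_univ a)) (c M) (hc M) (hg M) [b] _
      (chain_ne98' c hg π M (π b) x hx)
    rw [ev_word_cons, ev_word_nil] at he
    refine ⟨e₀ * e, Nat.mul_pos he₀ he1, fun r hr h6 => ?_, ?_⟩
    · rcases (hr.dvd_mul).1 h6 with h7 | h7
      · exact hesm₀ r hr h7
      · exact hesm r hr h7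
    · rw [h5, he, mul_assoc]
      rfl

/-- **The criterion** -/
theorem finN
    {m k : ℕ} (K : Subfield ℂ) (hK : NumberField K) (B : Set (MvPolynomial (Fin m) ℂ)) (hB : ∀ g ∈ B, ∀ s, coeff s g ∈ K)
    (F : Fin m → MvPolynomial (Fin m) ℂ) (hF : ∀ i s, coeff s (F i) ∈ K)
    (hFB : ∀ t : Fin m → ℂ, (∀ g ∈ B, eval t g = 0) → ∀ g ∈ B, eval (ev F t) g = 0)
    (het : ∀ t : Fin m → ℂ, (∀ g ∈ B, eval t g = 0) → (jac F t).det ≠ 0)
    (d : Fin k → ℕ) (hd : ∀ a, 1 ≤ d a) (C : Idx d → MvPolynomial (Fin m) ℂ) (hC : ∀ q s, coeff s (C q) ∈ K)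
    (hdeg : ∀ t : Fin m → ℂ, (∀ g ∈ B, eval t g = 0) → HasDeg (at' C t)) (π : Fin k → Fin k)
    (t : Fin m → ℂ) (ht : ∀ i, t i ∈ K) (htB : ∀ g ∈ B, eval t g = 0)
    (α : Fin k → Fin 2 → ℂ) (hα : ∀ b, α b ≠ 0) (σ : ℂ ≃+* ℂ) (hσ : ∀ z ∈ K, σ z = z) (N : ℕ)
    (hS : {z : ℂ | ∃ (n : ℕ) (a : Fin k) (x : Fin 2 → ℂ), x ≠ 0 ∧ wrh (at' C ((ev F)^[n + N] t)) a
      (chain (fun j => at' C ((ev F)^[n + j] t)) π N (π a) x) = 0 ∧ z = x 0 / x 1}.Finite)
    (h : ∀ a b, Adm π a b → IsAlgebraic ℚ (α b 0 / α b 1) → ∀ (n : ℕ) (x : Fin 2 → ℂ), x ≠ 0 →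
      wrh (at' C ((ev F)^[n + N] t)) a (chain (fun j => at' C ((ev F)^[n + j] t)) π N (π a) x) = 0 →
      (Pol C → α b 1 ≠ 0 → x 1 ≠ 0) →
      ∀ e, Smooth (Finset.univ.sup d) e → ol (σ : ℂ →+* ℂ) (α b) ≠ e * ol (σ : ℂ →+* ℂ) x)
    (V : Set (MvPolynomial (Fin m ⊕ Fin k × Fin 2) ℂ)) (hV : ∀ G ∈ V, MH G) : ∃ S : Finset (ℕ × ℕ),
      {n : ℕ | ∀ G ∈ V, eval (Sum.elim ((sysS F C π)^[n] (t, α)).1 fun q =>
        ((sysS F C π)^[n] (t, α)).2 q.1 q.2) G = 0} = {n | ∃ q ∈ S, ∃ j, n = q.1 + q.2 * j} := by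
  classical
  obtain ⟨T, B₀, hT, hTt, hTF, hTC, hTB, hBB⟩ := exists_T K B hB F hF C hC t ht
  -- the orbit of the base point
  have horb : ∀ n, (∀ g ∈ B, eval ((ev F)^[n] t) g = 0) ∧ ∀ i, (ev F)^[n] t i ∈ K := by
    intro n
    induction n with
    | zero => exact ⟨htB, ht⟩
    | succ n ih =>
      rw [Function.iterate_succ_apply']
      exact ⟨hFB _ ih.1, fun i => eval₂_mem (fun s _ => hF i s) ih.2⟩
  have hatK : ∀ n q, at' C ((ev F)^[n] t) q ∈ K := fun n q => eval₂_mem (fun s _ => hC q s) (horb n).2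
  obtain ⟨A, hA, -, hTA, hAt⟩ := exists_closed K (T : Set ℂ) T.countable_toSet hT
  have hAalg : ∀ z ∈ A, IsAlgebraic ℚ z := by
    intro z hz
    by_contra hcon
    refine hAt z (fun h1 => hcon ?_) hz
    exact (isAlgebraic_iff_isIntegral.2 (isIntegral_trans (R := ℚ) (A := K) _ (isAlgebraic_iff_isIntegral.1 h1)))
  have hmem : ∀ z, (z ∈ T ∨ z = 0) → z ∈ A := by
    rintro z (hz | rfl)
    · exact hTA hz
    · exact zero_mem _
  obtain ⟨Z₁, hZ₁, hred⟩ := Pool.Agent.Helper11.OS.redB A hA (B₀ : Set (MvPolynomial (Fin m) ℂ))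
    (fun g hg s => hmem _ (hTB g hg s)) C (fun q s => hmem _ (hTC q s)) (fun t ht => hdeg t ((hBB t).2 ht))
  obtain ⟨Z₂, hZ₂, hjac⟩ := jacB A hA (B₀ : Set (MvPolynomial (Fin m) ℂ)) (fun g hg s => hmem _ (hTB g hg s)) F
    (fun q s => hmem _ (hTF q s)) (fun t ht => het t ((hBB t).2 ht))
  let zz : Fin k → ℂ := fun b => α b 0 / α b 1
  let Z : Finset ℂ := Z₁ ∪ Z₂ ∪ T ∪ hS.toFinset ∪ (Finset.univ.filter fun b => IsAlgebraic ℚ (zz b)).image zz
  have hZ : ∀ z ∈ Z, IsAlgebraic ℚ z := by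
    intro z hz
    rcases Finset.mem_union.1 hz with hz | hz
    · rcases Finset.mem_union.1 hz with hz | hz
      · rcases Finset.mem_union.1 hz with hz | hz
        · rcases Finset.mem_union.1 hz with hz | hz
          · exact hAalg z (hZ₁ z hz)
          · exact hAalg z (hZ₂ z hz)
        · exact hAalg z (hTA hz)
      · obtain ⟨n, a, x, hx0, hw, rfl⟩ := hS.mem_toFinset.1 hz
        exact alg_chain K (fun j => at' C ((ev F)^[n + j] t)) (fun j => hatK (n + j)) (fun j => hdeg _ (horb (n + j)).1)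
          hd π N a (π a) x hx0 hw
    · obtain ⟨b, hb, rfl⟩ := Finset.mem_image.1 hz
      exact (Finset.mem_filter.1 hb).2
  have hZ₁Z : ∀ z ∈ Z₁, z ∈ Z := fun z hz => Finset.mem_union_left _ (Finset.mem_union_left _
    (Finset.mem_union_left _ (Finset.mem_union_left _ hz)))
  have hZ₂Z : ∀ z ∈ Z₂, z ∈ Z := fun z hz => Finset.mem_union_left _ (Finset.mem_union_left _
    (Finset.mem_union_left _ (Finset.mem_union_right _ hz)))
  have hTZ : ∀ z ∈ T, z ∈ Z := fun z hz => Finset.mem_union_left _ (Finset.mem_union_left _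
    (Finset.mem_union_right _ hz))
  have hSZ : ∀ z ∈ hS.toFinset, z ∈ Z := fun z hz => Finset.mem_union_left _ (Finset.mem_union_right _ hz)
  have hzzZ : ∀ b, IsAlgebraic ℚ (zz b) → zz b ∈ Z := fun b hb => Finset.mem_union_right _
    (Finset.mem_image.2 ⟨b, Finset.mem_filter.2 ⟨Finset.mem_univ _, hb⟩, rfl⟩)
  have hdD : ∀ a, d a ≤ Finset.univ.sup d := fun a => Finset.le_sup (f := d) (Finset.mem_univ a)
  obtain ⟨p, hp, τ, σ', l', hpN, hlN, hl', hUn, hper, htr⟩ := Pool.Agent.Helper83.OS.exN σ Z hZ zz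
    (max (2 * Finset.univ.sup d) 3)
  have hcharp : CharP (kk p) p := charP_kk p
  have halg : IsAlgClosed (kk p) := Pool.Agent.Helper46.OB.algClosed_kk p
  have hp3 : 3 ≤ p := (lt_of_le_of_lt (le_max_right _ 3) hpN).le
  have hpD : ∀ a, d a < p := by
    intro a
    have h1 := hdD a
    have h2 := lt_of_le_of_lt (le_max_left _ 3) hpN
    omega
  have hlD : 2 * Finset.univ.sup d < l' := lt_of_le_of_lt (le_max_left _ 3) hlN
  have hmemS : ∀ z, (z ∈ T ∨ z = 0) → z ∈ Sf τ σ' := by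
    rintro z (hz | rfl)
    · refine (mem_Sf τ σ').2 ⟨(hUn z (hTZ z hz)).1, ?_⟩
      exact (hper z (hTZ z hz) 1).2 (hσ z (hT z hz))
    · exact zero_mem _
  have hgood : ∀ t : Fin m → ℂ, (∀ g ∈ B, eval t g = 0) → (∀ i, ‖τ (t i)‖ ≤ 1) → ∀ a (x : Fin 2 → kk p), x ≠ 0 →
      ev (form (fun q => rd τ (at' C t q)) a) x ≠ 0 := fun t ht =>
    (hred p τ fun z hz => hUn z (hZ₁Z z hz)).2 t ((hBB t).1 ht)
  have hTn : ∀ n i, (ev F)^[n] t i ∈ Sf τ σ' := by
    intro n
    induction n with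
    | zero => exact fun i => hmemS _ (Or.inl (hTt i))
    | succ n ih =>
      rw [Function.iterate_succ_apply']
      exact fun i => eval₂_mem (fun s _ => hmemS _ (hTF i s)) ih
  have hat : ∀ n q, at' C ((ev F)^[n] t) q ∈ Sf τ σ' := fun n q => eval₂_mem (fun s _ => hmemS _ (hTC q s)) (hTn n)
  have hg : ∀ n a (x : Fin 2 → kk p), x ≠ 0 → ev (form (fun q => rd τ (at' C ((ev F)^[n] t) q)) a) x ≠ 0 := fun n =>
    hgood _ (horb n).1 fun i => ((mem_Sf τ σ').1 (hTn n i)).1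
  refine coreN hd F C π t α hα p hp3 hpD τ σ' (fun i s => hmemS _ (hTF i s)) (fun q s => hmemS _ (hTC q s))
    (fun i => hmemS _ (Or.inl (hTt i))) B htB hFB hgood ?_ N ?_ V hV
  · intro t ht
    exact hjac p τ (fun z hz => hUn z (hZ₂Z z hz)) t ((hBB t).1 ht)
  · intro a b hab n x hx0 hw hpl e he hesm heq
    by_cases hb : IsAlgebraic ℚ (zz b)
    · -- algebraic coordinates
      obtain ⟨y, hy0, hyw, hy1, hy2⟩ := chainLift τ (fun j => at' C ((ev F)^[n + j] t))
        (fun j q => ((mem_Sf τ σ').1 (hat (n + j) q)).1) hd hpD (fun j => hg (n + j)) π N a (π a) x hx0 hw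
      have holx : ol σ' x = ol (σ : ℂ →+* ℂ) y := by
        by_cases hy : y 1 = 0
        · unfold ol
          rw [hy1 hy, pr_inf y hy, per_none, per_none]
        · have hyS : y 0 / y 1 ∈ Z := hSZ _ (hS.mem_toFinset.2 ⟨n, a, y, hy0, hyw, rfl⟩)
          have h3 : pr y = some (y 0 / y 1) := by
            unfold pr
            rw [if_neg hy]
          unfold ol
          rw [hy2 hy (hUn _ hyS).1, h3]
          exact per_eq τ (σ : ℂ →+* ℂ) σ' _ (hper _ hyS)
      have hola : Function.minimalPeriod (Option.map σ') (rp τ (α b)) = ol (σ : ℂ →+* ℂ) (α b) := by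
        by_cases hα1 : α b 1 = 0
        · rw [rp, if_neg (fun h3 => h3.1 hα1), ol, pr_inf _ hα1, per_none, per_none]
        · have h3 : pr (α b) = some (zz b) := by
            unfold pr
            rw [if_neg hα1]
          rw [rp, if_pos ⟨hα1, (hUn _ (hzzZ b hb)).1⟩, ol, h3]
          exact per_eq τ (σ : ℂ →+* ℂ) σ' _ (hper _ (hzzZ b hb))
      rw [holx, hola] at heq
      refine h a b hab hb n y hy0 hyw (fun hP hα1 hy => ?_) e hesm heq
      have h3 : rp τ (α b) ≠ none := by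
        rw [rp, if_pos ⟨hα1, (hUn _ (hzzZ b hb)).1⟩]
        exact Option.some_ne_none _
      have h4 := hy1 hy
      unfold pr at h4
      rw [if_neg (hpl hP h3)] at h4
      exact absurd h4 (Option.some_ne_none _)
    · -- transcendental coordinates
      have hα1 : α b 1 ≠ 0 := by
        intro h3
        apply hb
        change IsAlgebraic ℚ (α b 0 / α b 1)
        rw [h3, div_zero]
        exact isAlgebraic_zero
      obtain ⟨e', he', hesm', hx⟩ := ol_chain σ' (fun j q => rd τ (at' C ((ev F)^[n + j] t) q))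
        (fun j q => ((mem_Sf τ σ').1 (hat (n + j) q)).2) hd (fun j => hg (n + j)) π N (π a) x hx0
      obtain ⟨h6, h7⟩ := Pool.Agent.Helper10.OS.crS p σ' (fun q => rd τ (at' C ((ev F)^[n + N] t) q))
        (fun q => ((mem_Sf τ σ').1 (hat (n + N) q)).2) a (hd a) (hpD a) (hg (n + N) a) _
        (chain_ne98' _ (fun j => hg (n + j)) π N (π a) x hx0) hw
      rw [hx] at heq
      obtain ⟨h8, h9⟩ := htr b hb
      have hpos : 0 < Function.minimalPeriod (Option.map σ') (rp τ (α b)) := by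
        rw [heq]
        exact Nat.mul_pos he (Nat.mul_pos he' h6)
      have h10 : l' ∣ Function.minimalPeriod (Option.map σ') (rp τ (α b)) := by
        refine h9 _ hpos ?_
        have h4 : (Option.map σ')^[Function.minimalPeriod (Option.map σ') (rp τ (α b))] (rp τ (α b)) =
            rp τ (α b) := Function.isPeriodicPt_minimalPeriod _ _
        have h5 : rp τ (α b) = some (rd τ (zz b)) := by
          rw [rp, if_pos ⟨hα1, h8⟩]
        rw [h5, option_iterate, Option.some_inj] at h4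
        rw [h5]
        exact h4
      rw [heq] at h10
      have h13 := hdD a
      rcases hl'.dvd_mul.1 h10 with h11 | h11
      · have h12 := hesm l' hl' h11
        omega
      · rcases hl'.dvd_mul.1 h11 with h12 | h12
        · have h14 := hesm' l' hl' h12
          omega
        · have h14 := Nat.le_of_dvd h6 h12
          omega

end

end Pool.Agent.Helper26.OT
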