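import Mathlib
import Pool.Agent.Helper26.OT.Fin
import Pool.Agent.Helper26.RE.Emb

/-!
# OT: the criterion for complex conjugation
-/

set_option autoImplicit false

namespace Pool.Agent.Helper26.OT

open MvPolynomial Pool.Agent.Helper61.TH Pool.Agent.Helper87.FK Pool.Agent.Helper26.OB Pool.Agent.Helper26.OS

noncomputable section

section closed

variable (A : Subfield ℂ) (hA : ∀ z : ℂ, IsAlgebraic A z → z ∈ A)

include hA

/-- roots of polynomials with coefficients in an algebraically closed field -/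
theorem mem_root (P : Polynomial ℂ) (hP : P ≠ 0) (hc : ∀ n, P.coeff n ∈ A) (z : ℂ) (hz : P.eval z = 0) : z ∈ A := by
  obtain ⟨P', hP'⟩ : ∃ P' : Polynomial A, P'.map (algebraMap A ℂ) = P := by
    have h2 : P ∈ Polynomial.lifts (algebraMap A ℂ) := by
      rw [Polynomial.lifts_iff_coeff_lifts]
      intro n
      exact ⟨⟨_, hc n⟩, rfl⟩
    exact h2
  refine hA z ⟨P', fun h => hP ?_, ?_⟩
  · rw [← hP', h, Polynomial.map_zero]
  · rw [Polynomial.aeval_def, ← Polynomial.eval_map, hP', hz]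

variable {k : ℕ} {d : Fin k → ℕ}

/-- critical points -/
theorem mem_crit (c : Idx d → ℂ) (hc : ∀ q, c q ∈ A) (hdeg : HasDeg c) (a : Fin k) (hd : 1 ≤ d a) (x : Fin 2 → ℂ)
    (hw : wrh c a x = 0) : x 0 / x 1 ∈ A := by
  classical
  by_cases hx1 : x 1 = 0
  · rw [hx1, div_zero]
    exact A.zero_mem
  have hW := Pool.Agent.Helper10.OB.wp_ne_zero c hdeg a hd
  refine mem_root A hA (Pool.Agent.Helper10.OB.wp c a) hW (fun n => ?_) _ ?_
  · rw [Pool.Agent.Helper10.OB.wp, Polynomial.finsetSum_coeff]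
    refine A.sum_mem fun i _ => ?_
    rw [Polynomial.finsetSum_coeff]
    refine A.sum_mem fun j _ => ?_
    rw [Polynomial.coeff_C_mul, Polynomial.coeff_X_pow]
    refine A.mul_mem (A.mul_mem (A.mul_mem (A.sub_mem (natCast_mem A _) (natCast_mem A _)) (hc _)) (hc _)) ?_
    split_ifs
    · exact A.one_mem
    · exact A.zero_mem
  · have h3 := Pool.Agent.Helper10.OB.eval_wp c a (fun i => (x 1)⁻¹ * x i) (inv_mul_cancel₀ hx1)
    rw [Pool.Agent.Helper10.OB.wrh_smul, hw, mul_zero] at h3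
    rw [div_eq_inv_mul]
    exact h3

/-- preimages -/
theorem mem_step (c : Idx d → ℂ) (hc : ∀ q, c q ∈ A) (hdeg : HasDeg c) (b : Fin k) (hd : 1 ≤ d b)
    (x : Fin 2 → ℂ) (hx : x ≠ 0) (h : ev (form c b) x 0 / ev (form c b) x 1 ∈ A) : x 0 / x 1 ∈ A := by
  by_cases hx1 : x 1 = 0
  · rw [hx1, div_zero]
    exact A.zero_mem
  set w := ev (form c b) x with hw
  have hw0 : w ≠ 0 := fun h => hx (hd_ev c hdeg b x h)
  -- `u w₀ + v w₁ = 0`
  obtain ⟨u, v, huv, hua, hva, huw⟩ : ∃ u v : ℂ, ¬ (u = 0 ∧ v = 0) ∧ u ∈ A ∧ v ∈ A ∧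
      u * w 0 + v * w 1 = 0 := by
    by_cases hw1 : w 1 = 0
    · exact ⟨0, 1, fun h => one_ne_zero h.2, A.zero_mem, A.one_mem, by rw [hw1]; ring⟩
    · refine ⟨1, -(w 0 / w 1), fun h => one_ne_zero h.1, A.one_mem, A.neg_mem h, ?_⟩
      field_simp
      ring
  obtain ⟨j, hj⟩ := comb_ne c hdeg b hd u v huv
  let Q : Polynomial ℂ := ∑ j : Fin (d b + 1),
    Polynomial.C (u * c ⟨b, (0, j)⟩ + v * c ⟨b, (1, j)⟩) * Polynomial.X ^ (j : ℕ)
  have hQc : ∀ n, Q.coeff n = if h : n < d b + 1 then u * c ⟨b, (0, ⟨n, h⟩)⟩ + v * c ⟨b, (1, ⟨n, h⟩)⟩ else 0 := by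
    intro n
    rw [Polynomial.finsetSum_coeff]
    split_ifs with h1
    · rw [Finset.sum_eq_single (⟨n, h1⟩ : Fin (d b + 1))]
      · rw [Polynomial.coeff_C_mul, Polynomial.coeff_X_pow, if_pos rfl, mul_one]
      · intro j _ hj
        rw [Polynomial.coeff_C_mul, Polynomial.coeff_X_pow, if_neg, mul_zero]
        intro h
        exact hj (Fin.ext h.symm)
      · intro h
        exact absurd (Finset.mem_univ _) h
    · refine Finset.sum_eq_zero fun j _ => ?_
      rw [Polynomial.coeff_C_mul, Polynomial.coeff_X_pow, if_neg, mul_zero]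
      intro h
      exact h1 (h ▸ j.2)
  refine mem_root A hA Q (fun h0 => hj ?_) (fun n => ?_) _ ?_
  · have h1 := hQc j
    rw [h0, Polynomial.coeff_zero, dif_pos j.2] at h1
    exact h1.symm
  · rw [hQc]
    split_ifs with h1
    · exact A.add_mem (A.mul_mem hua (hc _)) (A.mul_mem hva (hc _))
    · exact A.zero_mem
  · have h1 : Q.eval (x 0 / x 1) = ∑ j : Fin (d b + 1), (u * c ⟨b, (0, j)⟩ + v * c ⟨b, (1, j)⟩) * (x 0 / x 1) ^ (j : ℕ) := by
      rw [Polynomial.eval_finsetSum]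
      refine Finset.sum_congr rfl fun j _ => ?_
      rw [Polynomial.eval_mul, Polynomial.eval_C, Polynomial.eval_pow, Polynomial.eval_X]
    have h2 : x 1 ^ d b * Q.eval (x 0 / x 1) = 0 := by
      rw [← huw, h1, hw, ev_form, ev_form, Finset.mul_sum, Finset.mul_sum, Finset.mul_sum, ← Finset.sum_add_distrib]
      refine Finset.sum_congr rfl fun j _ => ?_
      have h3 : x 1 ^ d b = x 1 ^ (j : ℕ) * x 1 ^ (d b - j) := by
        rw [← pow_add]
        congr 1
        have := j.2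
        omega
      rw [h3, div_pow]
      field_simp
    exact (mul_eq_zero.1 h2).resolve_left (pow_ne_zero _ hx1)

/-- preimages of critical points -/
theorem mem_chain (c : ℕ → Idx d → ℂ) (hc : ∀ j q, c j q ∈ A)
    (hdeg : ∀ j, HasDeg (c j)) (hd : ∀ a, 1 ≤ d a) (π : Fin k → Fin k) (N : ℕ) (a b : Fin k) (x : Fin 2 → ℂ)
    (hx : x ≠ 0) (hw : wrh (c N) a (chain c π N b x) = 0) : x 0 / x 1 ∈ A := by
  have h2 : ∀ (M : ℕ) (b : Fin k), chain c π M b x ≠ 0 := by
    intro M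
    induction M with
    | zero => exact fun b => hx
    | succ M ih => exact fun b h => ih (π b) (hd_ev (c M) (hdeg M) b _ h)
  have h1 : ∀ (M : ℕ) (b : Fin k), chain c π M b x 0 / chain c π M b x 1 ∈ A → x 0 / x 1 ∈ A := by
    intro M
    induction M with
    | zero => exact fun b h => h
    | succ M ih => exact fun b h => ih (π b) (mem_step A hA (c M) (hc M) (hdeg M) b (hd b) _ (h2 M (π b)) h)
  exact h1 N b (mem_crit A hA (c N) (hc N) (hdeg N) a (hd a) _ hw)

end closed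

/-- **The criterion for complex conjugation** -/
theorem finC
    {m k : ℕ} (K : Subfield ℂ) (B : Set (MvPolynomial (Fin m) ℂ)) (hB : ∀ g ∈ B, ∀ s, coeff s g ∈ K)
    (F : Fin m → MvPolynomial (Fin m) ℂ) (hF : ∀ i s, coeff s (F i) ∈ K)
    (hFB : ∀ t : Fin m → ℂ, (∀ g ∈ B, eval t g = 0) → ∀ g ∈ B, eval (ev F t) g = 0)
    (het : ∀ t : Fin m → ℂ, (∀ g ∈ B, eval t g = 0) → (jac F t).det ≠ 0)
    (d : Fin k → ℕ) (hd : ∀ a, 1 ≤ d a) (C : Idx d → MvPolynomial (Fin m) ℂ) (hC : ∀ q s, coeff s (C q) ∈ K)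
    (hdeg : ∀ t : Fin m → ℂ, (∀ g ∈ B, eval t g = 0) → HasDeg (at' C t)) (π : Fin k → Fin k)
    (t : Fin m → ℂ) (ht : ∀ i, t i ∈ K) (htB : ∀ g ∈ B, eval t g = 0)
    (α : Fin k → Fin 2 → ℂ) (hα : ∀ b, α b ≠ 0) (σ : ℂ →+* ℂ) (hσc : ∀ z, σ z = starRingEnd ℂ z)
    (hσ : ∀ z ∈ K, σ z = z) (N : ℕ)
    (hS : {z : ℂ | ∃ (n : ℕ) (a : Fin k) (x : Fin 2 → ℂ), x ≠ 0 ∧ wrh (at' C ((ev F)^[n + N] t)) a
      (chain (fun j => at' C ((ev F)^[n + j] t)) π N (π a) x) = 0 ∧ z = x 0 / x 1}.Finite)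
    (h : ∀ a b, Adm π a b → IsAlgebraic K (α b 0 / α b 1) → ∀ (n : ℕ) (x : Fin 2 → ℂ), x ≠ 0 →
      wrh (at' C ((ev F)^[n + N] t)) a (chain (fun j => at' C ((ev F)^[n + j] t)) π N (π a) x) = 0 →
      (Pol C → α b 1 ≠ 0 → x 1 ≠ 0) →
      ∀ e, Smooth (Finset.univ.sup d) e → ol σ (α b) ≠ e * ol σ x)
    (V : Set (MvPolynomial (Fin m ⊕ Fin k × Fin 2) ℂ)) (hV : ∀ G ∈ V, MH G) : ∃ S : Finset (ℕ × ℕ),
      {n : ℕ | ∀ G ∈ V, eval (Sum.elim ((sysS F C π)^[n] (t, α)).1 fun q =>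
        ((sysS F C π)^[n] (t, α)).2 q.1 q.2) G = 0} = {n | ∃ q ∈ S, ∃ j, n = q.1 + q.2 * j} := by
  classical
  obtain ⟨T, B₀, hT, hTt, hTF, hTC, hTB, hBB⟩ := exists_T K B hB F hF C hC t ht
  obtain ⟨A, hA, hAc, hTA, hAt⟩ := exists_closed K (T : Set ℂ) T.countable_toSet hT
  have hAalg : ∀ z ∈ A, IsAlgebraic K z := by
    intro z hz
    by_contra hcon
    exact hAt z hcon hz
  have hmem : ∀ z, (z ∈ T ∨ z = 0) → z ∈ A := by
    rintro z (hz | rfl)
    · exact hTA hz
    · exact zero_mem _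
  -- the orbit of the base point
  have horb : ∀ n, (∀ g ∈ B, eval ((ev F)^[n] t) g = 0) ∧ ∀ i, (ev F)^[n] t i ∈ A := by
    intro n
    induction n with
    | zero => exact ⟨htB, fun i => hmem _ (Or.inl (hTt i))⟩
    | succ n ih =>
      rw [Function.iterate_succ_apply']
      exact ⟨hFB _ ih.1, fun i => eval₂_mem (fun s _ => hmem _ (hTF i s)) ih.2⟩
  have hatA : ∀ n q, at' C ((ev F)^[n] t) q ∈ A := fun n q => eval₂_mem (fun s _ => hmem _ (hTC q s)) (horb n).2
  obtain ⟨Z₁, hZ₁, hred⟩ := Pool.Agent.Helper11.OS.redB A hA (B₀ : Set (MvPolynomial (Fin m) ℂ))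
    (fun g hg s => hmem _ (hTB g hg s)) C (fun q s => hmem _ (hTC q s)) (fun t ht => hdeg t ((hBB t).2 ht))
  obtain ⟨Z₂, hZ₂, hjac⟩ := jacB A hA (B₀ : Set (MvPolynomial (Fin m) ℂ)) (fun g hg s => hmem _ (hTB g hg s)) F
    (fun q s => hmem _ (hTF q s)) (fun t ht => het t ((hBB t).2 ht))
  let zz : Fin k → ℂ := fun b => α b 0 / α b 1
  let Z : Finset ℂ := Z₁ ∪ Z₂ ∪ T ∪ hS.toFinset ∪ (Finset.univ.filter fun b => zz b ∈ A).image zz
  have hZ : ∀ z ∈ Z, z ∈ A := by
    intro z hz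
    rcases Finset.mem_union.1 hz with hz | hz
    · rcases Finset.mem_union.1 hz with hz | hz
      · rcases Finset.mem_union.1 hz with hz | hz
        · rcases Finset.mem_union.1 hz with hz | hz
          · exact hZ₁ z hz
          · exact hZ₂ z hz
        · exact hTA hz
      · obtain ⟨n, a, x, hx0, hw, rfl⟩ := hS.mem_toFinset.1 hz
        exact mem_chain A hA (fun j => at' C ((ev F)^[n + j] t)) (fun j => hatA (n + j)) (fun j => hdeg _ (horb (n + j)).1)
          hd π N a (π a) x hx0 hw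
    · obtain ⟨b, hb, rfl⟩ := Finset.mem_image.1 hz
      exact (Finset.mem_filter.1 hb).2
  have hZ₁Z : ∀ z ∈ Z₁, z ∈ Z := fun z hz => Finset.mem_union_left _ (Finset.mem_union_left _
    (Finset.mem_union_left _ (Finset.mem_union_left _ hz)))
  have hZ₂Z : ∀ z ∈ Z₂, z ∈ Z := fun z hz => Finset.mem_union_left _ (Finset.mem_union_left _
    (Finset.mem_union_left _ (Finset.mem_union_right _ hz)))
  have hTZ : ∀ z ∈ T, z ∈ Z := fun z hz => Finset.mem_union_left _ (Finset.mem_union_left _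
    (Finset.mem_union_right _ hz))
  have hSZ : ∀ z ∈ hS.toFinset, z ∈ Z := fun z hz => Finset.mem_union_left _ (Finset.mem_union_right _ hz)
  have hzzZ : ∀ b, zz b ∈ A → zz b ∈ Z := fun b hb => Finset.mem_union_right _
    (Finset.mem_image.2 ⟨b, Finset.mem_filter.2 ⟨Finset.mem_univ _, hb⟩, rfl⟩)
  have hdD : ∀ a, d a ≤ Finset.univ.sup d := fun a => Finset.le_sup (f := d) (Finset.mem_univ a)
  obtain ⟨p, hp, τ, σ', l', hpN, hlN, hl', hUn, hper', htr⟩ := Pool.Agent.Helper26.RE.exC A hA hAc Z hZ zz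
    (max (2 * Finset.univ.sup d) 3)
  have hσi : ∀ (m : ℕ) (z : ℂ), (starRingEnd ℂ)^[m] z = σ^[m] z := by
    intro m
    induction m with
    | zero => exact fun z => rfl
    | succ m ih =>
      intro z
      rw [Function.iterate_succ_apply, Function.iterate_succ_apply, ih, hσc]
  have hper : ∀ z ∈ Z, ∀ m : ℕ, σ'^[m] (rd τ z) = rd τ z ↔ σ^[m] z = z := by
    intro z hz m
    rw [hper' z hz m, hσi]
  have hcharp : CharP (kk p) p := charP_kk p
  have halg : IsAlgClosed (kk p) := Pool.Agent.Helper46.OB.algClosed_kk p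
  have hp3 : 3 ≤ p := (lt_of_le_of_lt (le_max_right _ 3) hpN).le
  have hpD : ∀ a, d a < p := by
    intro a
    have h1 := hdD a
    have h2 := lt_of_le_of_lt (le_max_left _ 3) hpN
    omega
  have hlD : 2 * Finset.univ.sup d < l' := lt_of_le_of_lt (le_max_left _ 3) hlN
  have hmemS : ∀ z, (z ∈ T ∨ z = 0) → z ∈ Sf τ σ' := by
    rintro z (hz | rfl)
    · refine (mem_Sf τ σ').2 ⟨(hUn z (hTZ z hz)).1, ?_⟩
      exact (hper z (hTZ z hz) 1).2 (hσ z (hT z hz))
    · exact zero_mem _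
  have hgood : ∀ t : Fin m → ℂ, (∀ g ∈ B, eval t g = 0) → (∀ i, ‖τ (t i)‖ ≤ 1) → ∀ a (x : Fin 2 → kk p), x ≠ 0 →
      ev (form (fun q => rd τ (at' C t q)) a) x ≠ 0 := fun t ht =>
    (hred p τ fun z hz => hUn z (hZ₁Z z hz)).2 t ((hBB t).1 ht)
  have hTn : ∀ n i, (ev F)^[n] t i ∈ Sf τ σ' := by
    intro n
    induction n with
    | zero => exact fun i => hmemS _ (Or.inl (hTt i))
    | succ n ih =>
      rw [Function.iterate_succ_apply']
      exact fun i => eval₂_mem (fun s _ => hmemS _ (hTF i s)) ih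
  have hat : ∀ n q, at' C ((ev F)^[n] t) q ∈ Sf τ σ' := fun n q => eval₂_mem (fun s _ => hmemS _ (hTC q s)) (hTn n)
  have hg : ∀ n a (x : Fin 2 → kk p), x ≠ 0 → ev (form (fun q => rd τ (at' C ((ev F)^[n] t) q)) a) x ≠ 0 := fun n =>
    hgood _ (horb n).1 fun i => ((mem_Sf τ σ').1 (hTn n i)).1
  refine coreN hd F C π t α hα p hp3 hpD τ σ' (fun i s => hmemS _ (hTF i s)) (fun q s => hmemS _ (hTC q s))
    (fun i => hmemS _ (Or.inl (hTt i))) B htB hFB hgood ?_ N ?_ V hV
  · intro t ht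
    exact hjac p τ (fun z hz => hUn z (hZ₂Z z hz)) t ((hBB t).1 ht)
  · intro a b hab n x hx0 hw hpl e he hesm heq
    by_cases hb : zz b ∈ A
    · -- algebraic coordinates
      obtain ⟨y, hy0, hyw, hy1, hy2⟩ := chainLift τ (fun j => at' C ((ev F)^[n + j] t))
        (fun j q => ((mem_Sf τ σ').1 (hat (n + j) q)).1) hd hpD (fun j => hg (n + j)) π N a (π a) x hx0 hw
      have holx : ol σ' x = ol σ y := by
        by_cases hy : y 1 = 0
        · unfold ol
          rw [hy1 hy, pr_inf y hy, per_none, per_none]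
        · have hyS : y 0 / y 1 ∈ Z := hSZ _ (hS.mem_toFinset.2 ⟨n, a, y, hy0, hyw, rfl⟩)
          have h3 : pr y = some (y 0 / y 1) := by
            unfold pr
            rw [if_neg hy]
          unfold ol
          rw [hy2 hy (hUn _ hyS).1, h3]
          exact per_eq τ σ σ' _ (hper _ hyS)
      have hola : Function.minimalPeriod (Option.map σ') (rp τ (α b)) = ol σ (α b) := by
        by_cases hα1 : α b 1 = 0
        · rw [rp, if_neg (fun h3 => h3.1 hα1), ol, pr_inf _ hα1, per_none, per_none]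
        · have h3 : pr (α b) = some (zz b) := by
            unfold pr
            rw [if_neg hα1]
          rw [rp, if_pos ⟨hα1, (hUn _ (hzzZ b hb)).1⟩, ol, h3]
          exact per_eq τ σ σ' _ (hper _ (hzzZ b hb))
      rw [holx, hola] at heq
      refine h a b hab (hAalg _ hb) n y hy0 hyw (fun hP hα1 hy => ?_) e hesm heq
      have h3 : rp τ (α b) ≠ none := by
        rw [rp, if_pos ⟨hα1, (hUn _ (hzzZ b hb)).1⟩]
        exact Option.some_ne_none _
      have h4 := hy1 hy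
      unfold pr at h4
      rw [if_neg (hpl hP h3)] at h4
      exact absurd h4 (Option.some_ne_none _)
    · -- transcendental coordinates
      have hα1 : α b 1 ≠ 0 := by
        intro h3
        apply hb
        change α b 0 / α b 1 ∈ A
        rw [h3, div_zero]
        exact A.zero_mem
      obtain ⟨e', he', hesm', hx⟩ := ol_chain σ' (fun j q => rd τ (at' C ((ev F)^[n + j] t) q))
        (fun j q => ((mem_Sf τ σ').1 (hat (n + j) q)).2) hd (fun j => hg (n + j)) π N (π a) x hx0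
      obtain ⟨h6, h7⟩ := Pool.Agent.Helper10.OS.crS p σ' (fun q => rd τ (at' C ((ev F)^[n + N] t) q))
        (fun q => ((mem_Sf τ σ').1 (hat (n + N) q)).2) a (hd a) (hpD a) (hg (n + N) a) _
        (chain_ne98' _ (fun j => hg (n + j)) π N (π a) x hx0) hw
      rw [hx] at heq
      obtain ⟨h8, h9⟩ := htr b hb
      have hpos : 0 < Function.minimalPeriod (Option.map σ') (rp τ (α b)) := by
        rw [heq]
        exact Nat.mul_pos he (Nat.mul_pos he' h6)
      have h10 : l' ∣ Function.minimalPeriod (Option.map σ') (rp τ (α b)) := by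
        refine h9 _ hpos ?_
        have h4 : (Option.map σ')^[Function.minimalPeriod (Option.map σ') (rp τ (α b))] (rp τ (α b)) =
            rp τ (α b) := Function.isPeriodicPt_minimalPeriod _ _
        have h5 : rp τ (α b) = some (rd τ (zz b)) := by
          rw [rp, if_pos ⟨hα1, h8⟩]
        rw [h5, option_iterate, Option.some_inj] at h4
        rw [h5]
        exact h4
      rw [heq] at h10
      have h13 := hdD a
      rcases hl'.dvd_mul.1 h10 with h11 | h11
      · have h12 := hesm l' hl' h11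
        omega
      · rcases hl'.dvd_mul.1 h11 with h12 | h12
        · have h14 := hesm' l' hl' h12
          omega
        · have h14 := Nat.le_of_dvd h6 h12
          omega

end

end Pool.Agent.Helper26.OT
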