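import Mathlib
import Pool.Agent.Helper26.OS.Fin5
import Pool.Agent.Helper26.OT.FinC

/-!
# OT: the theorem in the form of the result file
-/

set_option autoImplicit false

namespace Pool.Agent.Helper26.OT

open MvPolynomial Pool.Agent.Helper61.TH Pool.Agent.Helper87.FK Pool.Agent.Helper26.OB Pool.Agent.Helper26.OS

noncomputable section

/-- the steps of the system and the chain -/
theorem sys_chain {m k : ℕ} {d : Fin k → ℕ} (F : Fin m → MvPolynomial (Fin m) ℂ)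
    (C : Idx d → MvPolynomial (Fin m) ℂ) (π : Fin k → Fin k) (t : Fin m → ℂ) (n N : ℕ) (x : Fin 2 → ℂ) (b : Fin k) :
    ((sysS F C π)^[N] ((ev F)^[n] t, fun _ => x)).2 b = chain (fun j => at' C ((ev F)^[n + j] t)) π N b x := by
  have h1 : ∀ N, ((sysS F C π)^[N] ((ev F)^[n] t, fun _ => x)).1 = (ev F)^[n + N] t := by
    intro N
    induction N with
    | zero => rfl
    | succ N ih =>
      rw [Function.iterate_succ_apply']
      change ev F ((sysS F C π)^[N] ((ev F)^[n] t, fun _ => x)).1 = _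
      rw [ih, ← Nat.add_assoc, Function.iterate_succ_apply']
  induction N generalizing b with
  | zero => rfl
  | succ N ih =>
    rw [Function.iterate_succ_apply']
    change ev (form (at' C ((sysS F C π)^[N] ((ev F)^[n] t, fun _ => x)).1) b)
      (((sysS F C π)^[N] ((ev F)^[n] t, fun _ => x)).2 (π b)) = _
    rw [h1, ih]
    rfl

theorem formN {m k : ℕ} (K : Subfield ℂ) (B : Set (MvPolynomial (Fin m) ℂ)) (hB : ∀ g ∈ B, ∀ s, coeff s g ∈ K)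
    (F : Fin m → MvPolynomial (Fin m) ℂ) (hF : ∀ i s, coeff s (F i) ∈ K)
    (hFB : ∀ t : Fin m → ℂ, (∀ g ∈ B, eval t g = 0) → ∀ g ∈ B, eval (ev F t) g = 0)
    (het : ∀ t : Fin m → ℂ, (∀ g ∈ B, eval t g = 0) → (jac F t).det ≠ 0)
    (d : Fin k → ℕ) (hd : ∀ a, 1 ≤ d a) (C : Idx d → MvPolynomial (Fin m) ℂ) (hC : ∀ q s, coeff s (C q) ∈ K)
    (hdeg : ∀ t : Fin m → ℂ, (∀ g ∈ B, eval t g = 0) → HasDeg (at' C t)) (π : Fin k → Fin k)
    (t : Fin m → ℂ) (ht : ∀ i, t i ∈ K) (htB : ∀ g ∈ B, eval t g = 0)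
    (α : Fin k → Fin 2 → ℂ) (hα : ∀ b, α b ≠ 0)
    (h : (∃ l : ℕ, l.Prime ∧ ((∀ a, 2 * d a - 2 < l) ∨ Pol C ∧ ∀ a, d a < l) ∧ k ≤ l ∧
        ∀ b, (∃ a, Adm π a b ∧ 2 ≤ d a) → Transcendental K (α b 0 / α b 1) ∨
          NumberField K ∧ l ∣ (minpoly K (α b 0 / α b 1)).natDegree) ∨
      ∃ (r : ℕ) (σ : ℂ ≃+* ℂ), (∀ z ∈ K, σ z = z) ∧ (NumberField K ∨ ∀ z, σ z = starRingEnd ℂ z) ∧
        {z : ℂ | ∃ (n : ℕ) (a : Fin k) (x : Fin 2 → ℂ), (x ≠ 0 ∧ wrh (at' C ((ev F)^[n + r] t)) a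
          (((sysS F C π)^[r] ((ev F)^[n] t, fun _ => x)).2 (π a)) = 0) ∧ z = x 0 / x 1}.Finite ∧
        ∀ a b, Adm π a b → IsAlgebraic K (α b 0 / α b 1) → ∀ (n : ℕ) (x : Fin 2 → ℂ),
        (x ≠ 0 ∧ wrh (at' C ((ev F)^[n + r] t)) a
          (((sysS F C π)^[r] ((ev F)^[n] t, fun _ => x)).2 (π a)) = 0) → (Pol C → α b 1 ≠ 0 → x 1 ≠ 0) →
        ∀ e, (∀ q : ℕ, q.Prime → q ∣ e → ∃ a', q ≤ d a') →
          sInf {n | 1 ≤ n ∧ σ^[n] (α b 0) * α b 1 = α b 0 * σ^[n] (α b 1)} ≠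
            e * sInf {n | 1 ≤ n ∧ σ^[n] (x 0) * x 1 = x 0 * σ^[n] (x 1)})
    (V : Set (MvPolynomial (Fin m ⊕ Fin k × Fin 2) ℂ))
    (hV : ∀ G ∈ V, ∃ g : Fin k → ℕ, ∀ s ∈ G.support, ∀ b, ∑ i, s (Sum.inr (b, i)) = g b) : ∃ S : Finset (ℕ × ℕ),
      {n : ℕ | ∀ G ∈ V, eval (Sum.elim ((sysS F C π)^[n] (t, α)).1 fun q =>
        ((sysS F C π)^[n] (t, α)).2 q.1 q.2) G = 0} = {n | ∃ q ∈ S, ∃ j, n = q.1 + q.2 * j} := by
  classical
  rcases h with ⟨l, hl, hld, hk, h⟩ | ⟨r, σ, hσ, hKσ, hS, h⟩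
  · exact finS K B hB F hF hFB het d hd C hC hdeg π t ht htB α hα l hl hld hk h V hV
  · simp only [sys_chain] at hS h
    have hS' : {z : ℂ | ∃ (n : ℕ) (a : Fin k) (x : Fin 2 → ℂ), x ≠ 0 ∧ wrh (at' C ((ev F)^[n + r] t)) a
        (chain (fun j => at' C ((ev F)^[n + j] t)) π r (π a) x) = 0 ∧ z = x 0 / x 1}.Finite := by
      refine hS.subset ?_
      rintro z ⟨n, a, x, hx0, hw, rfl⟩
      exact ⟨n, a, x, ⟨hx0, hw⟩, rfl⟩
    have h' : ∀ a b, Adm π a b → IsAlgebraic K (α b 0 / α b 1) → ∀ (n : ℕ) (x : Fin 2 → ℂ), x ≠ 0 →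
        wrh (at' C ((ev F)^[n + r] t)) a (chain (fun j => at' C ((ev F)^[n + j] t)) π r (π a) x) = 0 →
        (Pol C → α b 1 ≠ 0 → x 1 ≠ 0) →
        ∀ e, Smooth (Finset.univ.sup d) e → ol (σ : ℂ →+* ℂ) (α b) ≠ e * ol (σ : ℂ →+* ℂ) x := by
      intro a b hab halg n x hx0 hw hpl e he heq
      refine h a b hab halg n x ⟨hx0, hw⟩ hpl e (fun q hq hqe => ?_) ?_
      · have h1 := he q hq hqe
        have h2 : (Finset.univ : Finset (Fin k)).Nonempty := ⟨a, Finset.mem_univ _⟩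
        obtain ⟨a', -, ha'⟩ := Finset.exists_mem_eq_sup _ h2 d
        exact ⟨a', ha' ▸ h1⟩
      · rw [← Pool.Agent.Helper38.OB.ol_eq', ← Pool.Agent.Helper38.OB.ol_eq']
        exact heq
    rcases hKσ with hK | hσc
    · refine finN K hK B hB F hF hFB het d hd C hC hdeg π t ht htB α hα σ hσ r hS' ?_ V hV
      intro a b hab halg
      refine h' a b hab ?_
      have h1 : IsAlgebraic ℚ (α b 0 / α b 1) := halg
      exact h1.tower_top K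
    · exact finC K B hB F hF hFB het d hd C hC hdeg π t ht htB α hα (σ : ℂ →+* ℂ) hσc hσ r hS' h' V hV

end

end Pool.Agent.Helper26.OT
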